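import Pool.Agent.L7h64.FB.Stm
import Pool.Agent.L7h77.FA.Dq

/-! Project FB of helper64: S_DQ. -/

set_option autoImplicit false
set_option linter.unusedVariables false

open MeasureTheory Metric Set Filter Topology InnerProductGeometry

namespace Pool.Agent.L7h77.FB

open Pool.Agent.H241R3.FV (E Sph sig ext gnorm act mat RChart Fill)
open Pool.Agent.L7h64.FB

namespace DQ

open Pool.Agent.H241R3.FV.TDiff
open Pool.Agent.L7h77.FA.DQ (wdiff act_smul act_mul gnorm_act')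

theorem lip_cont {F : Sph 3 → ℝ} (hF : Lip1 F) : Continuous F := by
  rw [continuous_iff_continuousAt]
  intro θ
  have h0 : (θ : E 3) ≠ 0 := by
    intro h
    have h1 : ‖(θ : E 3)‖ = 1 := by simpa using θ.2
    rw [h, norm_zero] at h1
    exact zero_ne_one h1
  have h1 : Tendsto (fun θ' : Sph 3 => angle (θ' : E 3) (θ : E 3)) (𝓝 θ) (𝓝 0) := by
    have h2 : ContinuousAt (fun θ' : Sph 3 => angle (θ' : E 3) (θ : E 3)) θ := by
      have h3 := InnerProductGeometry.continuousAt_angle (x := ((θ : E 3), (θ : E 3))) h0 h0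
      have h4 : ContinuousAt (fun θ' : Sph 3 => ((θ' : E 3), (θ : E 3))) θ := by
        apply Continuous.continuousAt
        fun_prop
      exact ContinuousAt.comp (f := fun θ' : Sph 3 => ((θ' : E 3), (θ : E 3))) h3 h4
    have h5 := h2.tendsto
    rwa [InnerProductGeometry.angle_self h0] at h5
  unfold ContinuousAt
  rw [tendsto_iff_dist_tendsto_zero]
  refine squeeze_zero (fun _ => dist_nonneg) (fun θ' => ?_) h1
  rw [Real.dist_eq]
  exact hF θ' θ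

theorem norm_sph (θ : Sph 3) : ‖(θ : E 3)‖ = 1 := by simpa using θ.2

theorem inner_lt {x : E 3} (hx : ‖x‖ < 1) (θ : Sph 3) : |(inner ℝ x (θ : E 3) : ℝ)| < 1 := by
  have h1 := abs_real_inner_le_norm x (θ : E 3)
  rw [norm_sph, mul_one] at h1
  linarith

theorem DD_pos {x : E 3} (hx : ‖x‖ < 1) (θ : Sph 3) : 0 < DD x (θ : E 3) := by
  unfold DD
  apply Real.sqrt_pos.2
  have h1 := inner_lt hx θ
  have h2 : (inner ℝ x (θ : E 3) : ℝ) ^ 2 < 1 := by
    rw [← sq_abs]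
    nlinarith [abs_nonneg (inner ℝ x (θ : E 3) : ℝ)]
  linarith

theorem DD_cont (x : E 3) : Continuous (fun θ : Sph 3 => DD x (θ : E 3)) := by
  unfold DD
  fun_prop

theorem kernel_cont {F : Sph 3 → ℝ} (hF : Continuous F) {x : E 3} (hx : ‖x‖ < 1) :
    Continuous (fun θ : Sph 3 => (F θ - Real.arcsin (inner ℝ x (θ : E 3))) / DD x (θ : E 3) ^ 4) := by
  apply Continuous.div
  · apply hF.sub
    apply Real.continuous_arcsin.comp
    fun_prop
  · exact (DD_cont x).pow 4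
  · intro θ
    exact (pow_pos (DD_pos hx θ) 4).ne'

theorem integrable_sig {G : Type*} [NormedAddCommGroup G] {f : Sph 3 → G} (hf : Continuous f) :
    Integrable f (sig 3) :=
  hf.integrable_of_hasCompactSupport (HasCompactSupport.of_compactSpace f)

theorem T_sub {F F' : Sph 3 → ℝ} (hF : Continuous F) (hF' : Continuous F') {x : E 3}
    (hx : ‖x‖ < 1) : T F x - T F' x = (1 - ‖x‖ ^ 2) • ∫ θ : Sph 3,
      ((F θ - F' θ) * (DD x (θ : E 3) ^ 4)⁻¹) • (θ : E 3) ∂(sig 3) := by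
  have h1 : Integrable (fun θ : Sph 3 => ((F θ - Real.arcsin (inner ℝ x (θ : E 3))) /
      DD x (θ : E 3) ^ 4) • (θ : E 3)) (sig 3) :=
    integrable_sig ((kernel_cont hF hx).smul continuous_subtype_val)
  have h2 : Integrable (fun θ : Sph 3 => ((F' θ - Real.arcsin (inner ℝ x (θ : E 3))) /
      DD x (θ : E 3) ^ 4) • (θ : E 3)) (sig 3) :=
    integrable_sig ((kernel_cont hF' hx).smul continuous_subtype_val)
  unfold T
  rw [← smul_sub, ← integral_sub h1 h2]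
  congr 2
  funext θ
  rw [← sub_smul]
  congr 1
  ring

/-- the square root of `1 - x xᵀ` -/
noncomputable def Gam (x : E 3) : Matrix (Fin 3) (Fin 3) ℝ :=
  fun i j => (if i = j then 1 else 0) - x i * x j / (1 + √(1 - ‖x‖ ^ 2))

theorem norm_three (x : E 3) : ‖x‖ ^ 2 = x 0 ^ 2 + x 1 ^ 2 + x 2 ^ 2 := by
  rw [EuclideanSpace.norm_sq_eq, Fin.sum_univ_three]
  simp

theorem det_Gam {x : E 3} (hx : ‖x‖ < 1) : (Gam x).det = √(1 - ‖x‖ ^ 2) := by
  have h0 : 0 ≤ 1 - ‖x‖ ^ 2 := by nlinarith [norm_nonneg x]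
  have hc : √(1 - ‖x‖ ^ 2) ^ 2 = 1 - ‖x‖ ^ 2 := Real.sq_sqrt h0
  have hcp : 0 ≤ √(1 - ‖x‖ ^ 2) := Real.sqrt_nonneg _
  rw [Matrix.det_fin_three]
  simp only [Gam]
  set c := √(1 - ‖x‖ ^ 2) with hcd
  have hn := norm_three x
  have h1 : 1 + c ≠ 0 := by positivity
  have hx2 : x 0 ^ 2 + x 1 ^ 2 + x 2 ^ 2 = (1 - c) * (1 + c) := by nlinarith
  have e : (1 - x 0 * x 0 / (1 + c)) * (1 - x 1 * x 1 / (1 + c)) * (1 - x 2 * x 2 / (1 + c)) -
      (1 - x 0 * x 0 / (1 + c)) * (0 - x 1 * x 2 / (1 + c)) * (0 - x 2 * x 1 / (1 + c)) -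
      (0 - x 0 * x 1 / (1 + c)) * (0 - x 1 * x 0 / (1 + c)) * (1 - x 2 * x 2 / (1 + c)) +
      (0 - x 0 * x 1 / (1 + c)) * (0 - x 1 * x 2 / (1 + c)) * (0 - x 2 * x 0 / (1 + c)) +
      (0 - x 0 * x 2 / (1 + c)) * (0 - x 1 * x 0 / (1 + c)) * (0 - x 2 * x 1 / (1 + c)) -
      (0 - x 0 * x 2 / (1 + c)) * (1 - x 1 * x 1 / (1 + c)) * (0 - x 2 * x 0 / (1 + c)) =
      1 - (x 0 ^ 2 + x 1 ^ 2 + x 2 ^ 2) / (1 + c) := by
    field_simp
    ring
  have e01 : ((0 : Fin 3) = 1) = False := by decide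
  have e02 : ((0 : Fin 3) = 2) = False := by decide
  have e10 : ((1 : Fin 3) = 0) = False := by decide
  have e12 : ((1 : Fin 3) = 2) = False := by decide
  have e20 : ((2 : Fin 3) = 0) = False := by decide
  have e21 : ((2 : Fin 3) = 1) = False := by decide
  simp only [e01, e02, e10, e12, e20, e21, if_true, if_false]
  refine (Eq.trans ?_ e).trans ?_
  · ring
  · rw [hx2]
    field_simp
    ring

theorem inner_three (x y : E 3) : (inner ℝ x y : ℝ) = x 0 * y 0 + x 1 * y 1 + x 2 * y 2 := by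
  simp [PiLp.inner_apply, Fin.sum_univ_three]
  ring

theorem norm_Gam {x : E 3} (hx : ‖x‖ < 1) (θ : Sph 3) :
    ‖act (Gam x) (θ : E 3)‖ = DD x (θ : E 3) := by
  have h0 : 0 ≤ 1 - ‖x‖ ^ 2 := by nlinarith [norm_nonneg x]
  have hc : √(1 - ‖x‖ ^ 2) ^ 2 = 1 - ‖x‖ ^ 2 := Real.sq_sqrt h0
  have hcp : 0 ≤ √(1 - ‖x‖ ^ 2) := Real.sqrt_nonneg _
  rw [DD, ← Real.sqrt_sq (norm_nonneg (act (Gam x) (θ : E 3)))]
  congr 1
  rw [norm_three]
  have hθ : (θ : E 3) 0 ^ 2 + (θ : E 3) 1 ^ 2 + (θ : E 3) 2 ^ 2 = 1 := by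
    rw [← norm_three, norm_sph]; norm_num
  rw [inner_three]
  have e01 : ((0 : Fin 3) = 1) = False := by decide
  have e02 : ((0 : Fin 3) = 2) = False := by decide
  have e10 : ((1 : Fin 3) = 0) = False := by decide
  have e12 : ((1 : Fin 3) = 2) = False := by decide
  have e20 : ((2 : Fin 3) = 0) = False := by decide
  have e21 : ((2 : Fin 3) = 1) = False := by decide
  simp only [act, Gam, Fin.sum_univ_three, e01, e02, e10, e12, e20, e21, if_true, if_false]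
  set c := √(1 - ‖x‖ ^ 2) with hcd
  have hn := norm_three x
  have h1 : 1 + c ≠ 0 := by positivity
  have hx2 : x 0 ^ 2 + x 1 ^ 2 + x 2 ^ 2 = (1 - c) * (1 + c) := by nlinarith
  set a := x 0
  set b := x 1
  set d := x 2
  set s := (θ : E 3) 0
  set t := (θ : E 3) 1
  set u := (θ : E 3) 2
  have e : ((1 - a * a / (1 + c)) * s + (0 - a * b / (1 + c)) * t + (0 - a * d / (1 + c)) * u) ^ 2 +
      ((0 - b * a / (1 + c)) * s + (1 - b * b / (1 + c)) * t + (0 - b * d / (1 + c)) * u) ^ 2 +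
      ((0 - d * a / (1 + c)) * s + (0 - d * b / (1 + c)) * t + (1 - d * d / (1 + c)) * u) ^ 2 =
      (s ^ 2 + t ^ 2 + u ^ 2) - 2 * (a * s + b * t + d * u) ^ 2 / (1 + c) +
        (a ^ 2 + b ^ 2 + d ^ 2) * (a * s + b * t + d * u) ^ 2 / (1 + c) ^ 2 := by
    field_simp
    ring
  rw [e, hx2, hθ]
  field_simp
  ring

theorem inner_Gi {e : E 3} (he : ‖e‖ = 1) {r : ℝ} (z : E 3) :
    (inner ℝ e (Gi e r z) : ℝ) = (inner ℝ e z : ℝ) / √(1 - r ^ 2) := by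
  unfold Gi
  rw [inner_add_right, real_inner_smul_right, real_inner_self_eq_norm_sq, he]
  ring

theorem norm_Gi {e : E 3} (he : ‖e‖ = 1) {r : ℝ} (z : E 3) :
    ‖Gi e r z‖ ^ 2 = ‖z‖ ^ 2 + ((1 / √(1 - r ^ 2)) ^ 2 - 1) * (inner ℝ e z : ℝ) ^ 2 := by
  unfold Gi
  rw [← real_inner_self_eq_norm_sq, inner_add_left, inner_add_right, inner_add_right,
    real_inner_smul_left, real_inner_smul_right, real_inner_smul_right, real_inner_smul_left,
    real_inner_self_eq_norm_sq, real_inner_self_eq_norm_sq, he, real_inner_comm e z]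
  ring

theorem DD_Gi {e : E 3} (he : ‖e‖ = 1) {r : ℝ} (h0 : 0 ≤ r) (h1 : r < 1) (u : Sph 3) :
    0 < ‖Gi e r (u : E 3)‖ ∧ DD (r • e) (pt (Gi e r (u : E 3)) : E 3) = ‖Gi e r (u : E 3)‖⁻¹ := by
  have hr2 : 0 < 1 - r ^ 2 := by nlinarith
  have hcp : 0 < √(1 - r ^ 2) := Real.sqrt_pos.2 hr2
  have hcs : √(1 - r ^ 2) ^ 2 = 1 - r ^ 2 := Real.sq_sqrt hr2.le
  have hc1 : √(1 - r ^ 2) ≤ 1 := by
    rw [Real.sqrt_le_one]
    nlinarith
  have hN := norm_Gi he (r := r) (u : E 3)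
  rw [norm_sph, one_pow] at hN
  have hk : 0 ≤ (1 / √(1 - r ^ 2)) ^ 2 - 1 := by
    rw [div_pow, one_pow, hcs, sub_nonneg, le_div_iff₀ hr2]
    nlinarith
  have hN1 : 1 ≤ ‖Gi e r (u : E 3)‖ ^ 2 := by
    rw [hN]
    nlinarith [mul_nonneg hk (sq_nonneg (inner ℝ e (u : E 3) : ℝ))]
  have hNp : 0 < ‖Gi e r (u : E 3)‖ := by
    by_contra h
    have h2 : ‖Gi e r (u : E 3)‖ = 0 := le_antisymm (not_lt.1 h) (norm_nonneg _)
    rw [h2] at hN1
    norm_num at hN1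
  refine ⟨hNp, ?_⟩
  have hne : Gi e r (u : E 3) ≠ 0 := norm_pos_iff.1 hNp
  have hpt : (pt (Gi e r (u : E 3)) : E 3) = ‖Gi e r (u : E 3)‖⁻¹ • Gi e r (u : E 3) := by
    unfold pt
    rw [dif_pos hne]
  unfold DD
  rw [hpt, real_inner_smul_left, real_inner_smul_right, inner_Gi he]
  have h3 : 1 - (r * (‖Gi e r (u : E 3)‖⁻¹ * ((inner ℝ e (u : E 3) : ℝ) / √(1 - r ^ 2)))) ^ 2 =
      (‖Gi e r (u : E 3)‖⁻¹) ^ 2 := by
    have h4 : (r * (‖Gi e r (u : E 3)‖⁻¹ * ((inner ℝ e (u : E 3) : ℝ) / √(1 - r ^ 2)))) ^ 2 =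
        r ^ 2 * (inner ℝ e (u : E 3) : ℝ) ^ 2 / (1 - r ^ 2) / ‖Gi e r (u : E 3)‖ ^ 2 := by
      rw [mul_pow, mul_pow, inv_pow, div_pow, hcs]
      field_simp
    have hN' : ‖Gi e r (u : E 3)‖ ^ 2 = 1 + r ^ 2 * (inner ℝ e (u : E 3) : ℝ) ^ 2 / (1 - r ^ 2) := by
      rw [hN, div_pow, one_pow, hcs]
      have := hr2.ne'
      field_simp
      ring
    rw [h4, inv_pow]
    have h5 : ‖Gi e r (u : E 3)‖ ^ 2 ≠ 0 := (by positivity)
    rw [sub_eq_iff_eq_add]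
    rw [eq_comm, ← one_div, ← add_div, div_eq_one_iff_eq h5, hN']
  rw [h3, Real.sqrt_sq (inv_nonneg.2 hNp.le)]

theorem sig_three : (sig 3).real univ = 4 * Real.pi := by
  have h3 : (Module.finrank ℝ (E 3) : ENNReal) = ENNReal.ofReal 3 := by simp
  have h : (sig 3) univ = ENNReal.ofReal (4 * Real.pi) := by
    unfold Pool.Agent.H241R3.FV.sig
    rw [Measure.toSphere_apply_univ, EuclideanSpace.volume_ball_fin_three, h3, ENNReal.ofReal_one,
      one_pow, one_mul, ← ENNReal.ofReal_mul (by norm_num)]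
    congr 1
    ring
  rw [Measure.real, h, ENNReal.toReal_ofReal (by positivity)]

theorem exists_unit (x : E 3) : ∃ e : E 3, ‖e‖ = 1 ∧ x = ‖x‖ • e := by
  by_cases hx : x = 0
  · exact ⟨EuclideanSpace.single 0 1, by simp, by rw [hx]; simp⟩
  · refine ⟨‖x‖⁻¹ • x, ?_, ?_⟩
    · rw [norm_smul, norm_inv, norm_norm, inv_mul_cancel₀ (norm_ne_zero_iff.2 hx)]
    · rw [smul_smul, mul_inv_cancel₀ (norm_ne_zero_iff.2 hx), one_smul]

/-- `∫ DD^(-3) = 4π / √(1 - |x|²)` -/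
theorem int_DD3 (hCH : S_CH) {x : E 3} (hx : ‖x‖ < 1) :
    √(1 - ‖x‖ ^ 2) * ∫ θ : Sph 3, (DD x (θ : E 3) ^ 3)⁻¹ ∂(sig 3) = 4 * Real.pi := by
  obtain ⟨e, he, hxe⟩ := exists_unit x
  have h0 := norm_nonneg x
  set r := ‖x‖ with hr
  have hcont : Continuous (fun θ : Sph 3 => (DD x (θ : E 3) ^ 3)⁻¹) :=
    ((DD_cont x).pow 3).inv₀
      (fun θ => (pow_pos (DD_pos (by rw [← hr]; exact hx) θ) 3).ne')
  have hr2 : 0 < 1 - r ^ 2 := by nlinarith
  have hcp : 0 < √(1 - r ^ 2) := Real.sqrt_pos.2 hr2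
  rw [hCH e he r h0 hx _ hcont, ← integral_const_mul]
  have h2 : ∀ u : Sph 3, √(1 - r ^ 2) * ((DD x (pt (Gi e r (u : E 3)) : E 3) ^ 3)⁻¹ /
      (√(1 - r ^ 2) * ‖Gi e r (u : E 3)‖ ^ 3)) = 1 := by
    intro u
    obtain ⟨h3, h4⟩ := DD_Gi he h0 hx u
    rw [hxe, h4]
    field_simp
  simp only [h2]
  rw [integral_const, sig_three]
  simp

theorem det_neg (L : E 3 →L[ℝ] E 3) : |(-L).det| = |L.det| := by
  have h1 : (-L).det = (-1) ^ 3 * L.det := by
    have h2 : (-L : E 3 →L[ℝ] E 3) = (-1 : ℝ) • L := by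
      ext v k
      simp
    show LinearMap.det ((-L : E 3 →L[ℝ] E 3) : E 3 →ₗ[ℝ] E 3) = _
    rw [h2]
    show LinearMap.det ((-1 : ℝ) • (L : E 3 →ₗ[ℝ] E 3)) = _
    rw [LinearMap.det_smul]
    simp
  rw [h1]
  norm_num

theorem s_DQ (hFF : S_FF) (hCH : S_CH) : S_DQ := by
  intro M _ bd hNS C
  obtain ⟨fa, fb, fc⟩ := Pool.Agent.H241R3.FV.taskExt 3 (by norm_num) M bd hNS
  have hloc := Pool.Agent.H241R3.FV.TLoc.taskLoc 3 M C
  have hw := wdiff C.isOpen_U (G := C.G) (F := fun θ p => ext bd θ (C.map p)) (by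
        intro p hp ε hε
        obtain ⟨r, hr, hr2, hr3⟩ := hloc p hp ε hε
        exact ⟨r, hr, hr2, fun x y hy z hz => (fa x _ _).trans (hr3 y hy z hz)⟩)
      (fun x x' p _ => fb x x' _)
  filter_upwards [hw] with p hp hpU x hx
  have hx2 : 0 < 1 - ‖x‖ ^ 2 := by nlinarith [norm_nonneg x]
  have hcp : 0 < √(1 - ‖x‖ ^ 2) := Real.sqrt_pos.2 hx2
  have hcs : √(1 - ‖x‖ ^ 2) ^ 2 = 1 - ‖x‖ ^ 2 := Real.sq_sqrt hx2.le
  have hDD : ∀ θ : Sph 3, 0 < DD x (θ : E 3) := DD_pos hx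
  set W : Sph 3 → ℝ := fun θ => (1 - ‖x‖ ^ 2) * (DD x (θ : E 3) ^ 4)⁻¹ with hWd
  have hWc : Continuous W := continuous_const.mul
    (((DD_cont x).pow 4).inv₀ (fun θ => (pow_pos (hDD θ) 4).ne'))
  have hW0 : ∀ θ, 0 ≤ W θ := fun θ => by
    have := hDD θ
    positivity
  obtain ⟨L, hL1, hL2⟩ := hp hpU W hWc hW0
  obtain ⟨g1, g2, g3⟩ := hFF M bd hNS
  refine ⟨-L, ?_, ?_⟩
  · have e : (fun p' => T (FF bd (C.map p')) x) = fun p' =>
        T (fun _ => Real.pi / 2) x - ∫ θ : Sph 3, (W θ * ext bd θ (C.map p')) • (θ : E 3) ∂(sig 3) := by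
      funext p'
      have h1 := T_sub (F := FF bd (C.map p')) (F' := fun _ => Real.pi / 2)
        (lip_cont (g1 _)) continuous_const hx
      have h2 : (1 - ‖x‖ ^ 2) • ∫ θ : Sph 3, ((FF bd (C.map p') θ - Real.pi / 2) *
          (DD x (θ : E 3) ^ 4)⁻¹) • (θ : E 3) ∂(sig 3) =
          -∫ θ : Sph 3, (W θ * ext bd θ (C.map p')) • (θ : E 3) ∂(sig 3) := by
        rw [← integral_smul, ← integral_neg]
        congr 1
        funext θ
        rw [smul_smul, ← neg_smul]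
        congr 1
        simp only [FF, hWd]
        ring
      rw [h2] at h1
      rw [← sub_add_cancel (T (FF bd (C.map p')) x) (T (fun _ => Real.pi / 2) x), h1]
      abel
    rw [e]
    have := (hasFDerivAt_const (T (fun _ => Real.pi / 2) x) p).sub hL1
    rwa [zero_sub] at this
  · rw [det_neg, Pool.Agent.H241R3.FV.det_mat]
    have key := Pool.Agent.H241R3.FV.TMat.taskMat 3 (by norm_num) (Gam x * mat L) (C.G p)
      (C.pos_G p hpU) (4 * Real.pi / 3 * √(1 - ‖x‖ ^ 2)) (by positivity) (by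
        intro A hA
        have e1 : (Gam x * mat L * A).trace = (mat L * (A * Gam x)).trace := by
          rw [Matrix.mul_assoc, Matrix.trace_mul_comm, Matrix.mul_assoc]
        rw [e1]
        refine (hL2 (A * Gam x)).trans ?_
        have e2 : (fun θ : Sph 3 => W θ * gnorm (C.G p) (act (A * Gam x) (θ : E 3))) =
            fun θ : Sph 3 => (1 - ‖x‖ ^ 2) * (DD x (θ : E 3) ^ 3)⁻¹ := by
          funext θ
          rw [act_mul, gnorm_act' _ _ hA, norm_Gam hx]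
          have := (hDD θ).ne'
          simp only [hWd]
          field_simp
        rw [e2, integral_const_mul]
        have h3 := int_DD3 hCH hx
        push_cast
        calc (1 - ‖x‖ ^ 2) * ∫ θ : Sph 3, (DD x (θ : E 3) ^ 3)⁻¹ ∂(sig 3) =
            √(1 - ‖x‖ ^ 2) ^ 2 * ∫ θ : Sph 3, (DD x (θ : E 3) ^ 3)⁻¹ ∂(sig 3) := by rw [hcs]
          _ = √(1 - ‖x‖ ^ 2) * (√(1 - ‖x‖ ^ 2) *
            ∫ θ : Sph 3, (DD x (θ : E 3) ^ 3)⁻¹ ∂(sig 3)) := by ring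
          _ = √(1 - ‖x‖ ^ 2) * (4 * Real.pi) := by rw [h3]
          _ ≤ _ := by linarith)
    rw [Matrix.det_mul, abs_mul, det_Gam hx, abs_of_pos hcp, mul_pow] at key
    have h4 : √(1 - ‖x‖ ^ 2) * |(mat L).det| ≤
        √(1 - ‖x‖ ^ 2) * ((4 * Real.pi / 3) ^ 3 * (1 - ‖x‖ ^ 2) * √(C.G p).det) := by
      refine key.trans (le_of_eq ?_)
      calc (4 * Real.pi / 3) ^ 3 * √(1 - ‖x‖ ^ 2) ^ 3 * √(C.G p).det =
          (4 * Real.pi / 3) ^ 3 * (√(1 - ‖x‖ ^ 2) * √(1 - ‖x‖ ^ 2) ^ 2) * √(C.G p).det := by ring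
        _ = _ := by
          rw [hcs]
          ring
    exact le_of_mul_le_mul_left h4 hcp

end DQ

theorem s_DQ (hFF : S_FF) (hCH : S_CH) : S_DQ := DQ.s_DQ hFF hCH

end Pool.Agent.L7h77.FB
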