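import Pool.Agent.L7h77.FB.Main
import Pool.Agent.L7h64.FB.Ch

/-! Project FB of helper64: `S_MAIN` from `S_XS` and `S_RAD`. -/

set_option autoImplicit false

namespace Pool.Agent.L7h77.FB

open Pool.Agent.L7h64.FB

theorem s_MAIN (hXS : S_XS) (hRAD : S_RAD) : S_MAIN :=
  MN.main_of Pool.Agent.L7h22.FA.s_CV (s_DQ Pool.Agent.L7h97.FB.s_FF Pool.Agent.L7h64.FB.s_CH)
    hXS hRAD

end Pool.Agent.L7h77.FB
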