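import Pool.Agent.L7h77.FB.Dq
import Pool.Agent.L7h97.FB.A
import Pool.Agent.L7h22.FA.Cv
import Pool.Agent.H241R3.FV.TNull

/-! Project FB of helper64: assembly. -/

set_option autoImplicit false
set_option linter.unusedVariables false

open MeasureTheory Metric Set Filter Topology InnerProductGeometry

namespace Pool.Agent.L7h77.FB

open Pool.Agent.H241R3.FV (E Sph sig ext gnorm act mat RChart Fill)
open Pool.Agent.L7h64.FB
open Pool.Agent.L7h77.FA (S_CV)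
open Pool.Agent.L7h97.FB (s_FF s_LQ s_CQ s_BD)

namespace MN

/-- measurability of the part of the domain with small value -/
theorem meas_part {M : Type} [MetricSpace M] (C : RChart 3 M) {Ψ : E 3 → E 3}
    (hΨ : ContinuousOn Ψ C.U) (ε : ℝ) : MeasurableSet (C.D ∩ {p | ‖Ψ p‖ < ε}) := by
  have h1 : IsOpen (C.U ∩ Ψ ⁻¹' (ball 0 ε)) :=
    hΨ.isOpen_inter_preimage C.isOpen_U isOpen_ball
  have h2 : C.D ∩ {p | ‖Ψ p‖ < ε} = C.D ∩ (C.U ∩ Ψ ⁻¹' (ball 0 ε)) := by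
    ext p
    constructor
    · rintro ⟨a, b⟩
      exact ⟨a, C.D_sub a, by simpa using b⟩
    · rintro ⟨a, _, b⟩
      exact ⟨a, by simpa using b⟩
  rw [h2]
  exact C.meas_D.inter h1.measurableSet

/-- charts are locally Lipschitz -/
theorem chart_lip {M : Type} [MetricSpace M] (C : RChart 3 M) {p : E 3} (hp : p ∈ C.U) :
    ∃ r : ℝ, 0 < r ∧ ∃ K : ℝ, 0 ≤ K ∧ ball p r ⊆ C.U ∧ ∀ y ∈ ball p r, ∀ z ∈ ball p r,
      dist (C.map y) (C.map z) ≤ K * ‖y - z‖ := by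
  obtain ⟨r, hr, hr2, hr3⟩ := Pool.Agent.H241R3.FV.TLoc.taskLoc 3 M C p hp 1 one_pos
  refine ⟨r, hr, √(∑ i, ∑ j, |C.G p i j|) + 1, by positivity, hr2, fun y hy z hz => ?_⟩
  have h1 := hr3 y hy z hz
  have h2 := Pool.Agent.H241R3.FV.gnorm_le (C.G p) (y - z)
  linarith

theorem chart_cont {M : Type} [MetricSpace M] (C : RChart 3 M) : ContinuousOn C.map C.U := by
  intro p hp
  obtain ⟨r, hr, K, hK, hr2, h⟩ := chart_lip C hp
  apply ContinuousAt.continuousWithinAt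
  rw [ContinuousAt, tendsto_iff_dist_tendsto_zero]
  refine squeeze_zero' (Eventually.of_forall fun _ => dist_nonneg) (g := fun y => K * ‖y - p‖) ?_ ?_
  · filter_upwards [ball_mem_nhds p hr] with y hy
    exact h y hy p (mem_ball_self hr)
  · have : Continuous fun y : E 3 => K * ‖y - p‖ := by fun_prop
    have h2 := this.tendsto p
    simpa using h2

/-- the area inequality in a chart -/
theorem chart_area {M : Type} [MetricSpace M] (C : RChart 3 M) (Φ : M → E 3) (K : ℝ)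
    (hK0 : 0 ≤ K) (hK : ∀ q q', ‖Φ q - Φ q'‖ ≤ K * dist q q') (c : ℝ) (hc : 0 ≤ c)
    (hd : ∀ᵐ p ∂(volume : Measure (E 3)), p ∈ C.U → ∃ L : E 3 →L[ℝ] E 3,
      HasFDerivAt (fun p' => Φ (C.map p')) L p ∧ |L.det| ≤ c * √(C.G p).det)
    (A : Set (E 3)) (hA : A ⊆ C.D) (hAm : MeasurableSet A) :
    volume ((fun p => Φ (C.map p)) '' A) ≤ ∫⁻ p in A, ENNReal.ofReal (c * √(C.G p).det) := by
  classical
  let Ψ : E 3 → E 3 := fun p => Φ (C.map p)
  let good : E 3 → (E 3 →L[ℝ] E 3) → Prop := fun p L =>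
    HasFDerivAt Ψ L p ∧ |L.det| ≤ c * √(C.G p).det
  let bad : Set (E 3) := {p | ¬ (p ∈ C.U → ∃ L, good p L)}
  have hbad : volume bad = 0 := hd
  let N : Set (E 3) := toMeasurable volume bad
  have hN0 : volume N = 0 := by rw [measure_toMeasurable, hbad]
  have hNm : MeasurableSet N := measurableSet_toMeasurable _ _
  have hbN : bad ⊆ N := subset_toMeasurable _ _
  have hex : ∀ p ∈ A \ N, ∃ L, good p L := by
    intro p hp
    by_contra hcon
    apply hp.2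
    apply hbN
    show ¬ (p ∈ C.U → ∃ L, good p L)
    intro h
    exact hcon (h (C.D_sub (hA hp.1)))
  let f' : E 3 → (E 3 →L[ℝ] E 3) := fun p => if h : ∃ L, good p L then h.choose else 0
  have hf' : ∀ p ∈ A \ N, good p (f' p) := by
    intro p hp
    have h := hex p hp
    simp only [f', dif_pos h]
    exact h.choose_spec
  have step1 : volume (Ψ '' (A \ N)) ≤ ∫⁻ p in A \ N, ENNReal.ofReal |(f' p).det| :=
    addHaar_image_le_lintegral_abs_det_fderiv volume (hAm.diff hNm)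
      (fun p hp => (hf' p hp).1.hasFDerivWithinAt)
  have step2 : ∫⁻ p in A \ N, ENNReal.ofReal |(f' p).det| ≤
      ∫⁻ p in A, ENNReal.ofReal (c * √(C.G p).det) := by
    calc ∫⁻ p in A \ N, ENNReal.ofReal |(f' p).det|
        ≤ ∫⁻ p in A \ N, ENNReal.ofReal (c * √(C.G p).det) := by
          refine setLIntegral_mono' (hAm.diff hNm) fun p hp => ?_
          exact ENNReal.ofReal_le_ofReal (hf' p hp).2
      _ ≤ _ := lintegral_mono_set sdiff_subset
  have step3 : volume (Ψ '' (A ∩ N)) = 0 := by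
    refine Pool.Agent.H241R3.FV.TNull.taskNull 3 C.U Ψ ?_ _ (fun p hp => C.D_sub (hA hp.1)) ?_
    · intro p hp
      obtain ⟨r, hr, K', hK', hr2, hr3⟩ := chart_lip C hp
      refine ⟨r, hr, K * K', fun y hy z hz => ?_⟩
      calc ‖Ψ y - Ψ z‖ ≤ K * dist (C.map y) (C.map z) := hK _ _
        _ ≤ K * (K' * ‖y - z‖) := mul_le_mul_of_nonneg_left (hr3 y hy z hz) hK0
        _ = _ := by ring
    · exact measure_mono_null inter_subset_right hN0
  calc volume (Ψ '' A) ≤ volume (Ψ '' (A \ N) ∪ Ψ '' (A ∩ N)) := by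
        apply measure_mono
        rw [← image_union, sdiff_union_inter]
    _ ≤ volume (Ψ '' (A \ N)) + volume (Ψ '' (A ∩ N)) := measure_union_le _ _
    _ = volume (Ψ '' (A \ N)) := by rw [step3, add_zero]
    _ ≤ _ := step1.trans step2

/-- the covering for one point `x` -/
theorem cover_x (hCV : S_CV) (hDQ : S_DQ) {M : Type} [MetricSpace M] [CompactSpace M] (S : Fill 2 M)
    (hNS : S.NonShort) (htop : S.Triangulated ∨ S.NoRetraction) {r0 : ℝ} (hr0 : 0 < r0)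
    (hr01 : r0 < 1) {x : E 3} (hx : ‖x‖ ≤ r0) {ε : ℝ} (hε : ε ≤ (1 - r0 ^ 2) * (1 - r0) ^ 2 / 4) :
    volume (ball (0 : E 3) ε) ≤ ∑' i, ∫⁻ p in (S.chart i).D ∩
      {p | ‖T (FF S.bd ((S.chart i).map p)) x‖ < ε},
      ENNReal.ofReal ((4 * Real.pi / 3) ^ 3 * (1 - ‖x‖ ^ 2) * √((S.chart i).G p).det) := by
  have hNS' : NS S.bd := hNS
  obtain ⟨g1, g2, g3⟩ := s_FF M S.bd hNS'
  have hx1 : ‖x‖ < 1 := hx.trans_lt hr01
  have hx2 : 0 < 1 - ‖x‖ ^ 2 := by nlinarith [norm_nonneg x]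
  have hcp : 0 < √(1 - ‖x‖ ^ 2) := Real.sqrt_pos.2 hx2
  set m : ℝ := (1 - r0 ^ 2) * (1 - r0) ^ 2 with hm
  have hq : 0 < 1 - r0 ^ 2 := by nlinarith
  have hq1 : 0 < 1 - r0 := by linarith
  have hm0 : 0 < m := by positivity
  let Φ : M → E 3 := fun q => T (FF S.bd q) x
  have hΦ : ∀ q q', ‖Φ q - Φ q'‖ ≤ 4 * Real.pi / (1 - ‖x‖ ^ 2) * dist q q' := fun q q' =>
    s_LQ x hx1 _ _ _ (g1 q) (g1 q') (fun θ => g2 q q' θ)
  have hbd : ∀ p : Sph 3, m ≤ inner ℝ (Φ (S.bd p)) ((p : E 3) - x) := by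
    intro p
    refine le_trans ?_ (s_BD M S.bd hNS' x hx1 p)
    have hp : ‖(p : E 3)‖ = 1 := by simpa using p.2
    have h1 : 1 - r0 ≤ ‖(p : E 3) - x‖ := by
      have := norm_sub_norm_le (p : E 3) x
      linarith
    have h2 : (1 - r0) ^ 2 ≤ ‖(p : E 3) - x‖ ^ 2 := pow_le_pow_left₀ hq1.le h1 2
    have h3 : 1 - r0 ^ 2 ≤ 4 * Real.pi / 3 * (1 - ‖x‖ ^ 2) := by
      have h4 : 1 - r0 ^ 2 ≤ 1 - ‖x‖ ^ 2 := by nlinarith [norm_nonneg x]
      have h5 := Real.pi_gt_three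
      nlinarith
    rw [hm]
    exact mul_le_mul h3 h2 (by positivity) (by positivity)
  have hcov := hCV 2 (by norm_num) M S hNS htop Φ (4 * Real.pi / (1 - ‖x‖ ^ 2)) hΦ x m hm0 hx1
    (by
      have h1 : (1 - r0) ^ 2 ≤ (1 - ‖x‖) ^ 2 := pow_le_pow_left₀ hq1.le (by linarith) 2
      refine le_trans ?_ h1
      rw [hm]
      have : 1 - r0 ^ 2 ≤ 1 := by nlinarith
      nlinarith [sq_nonneg (1 - r0)])
    hbd
  have := S.countable
  have hsub : ball (0 : E 3) ε ⊆ ⋃ i, (fun p => Φ ((S.chart i).map p)) '' ((S.chart i).D ∩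
      {p | ‖T (FF S.bd ((S.chart i).map p)) x‖ < ε}) := by
    intro y hy
    have hy' : ‖y‖ < ε := by simpa using hy
    obtain ⟨q, hq'⟩ := hcov (ball_subset_ball hε hy)
    rcases S.cover q with ⟨p, hp⟩ | ⟨i, p, hp, hpq⟩
    · exfalso
      have h1 := hbd p
      rw [hp, hq'] at h1
      have h2 := real_inner_le_norm y ((p : E 3) - x)
      have hp1 : ‖(p : E 3)‖ = 1 := by simpa using p.2
      have h3 : ‖(p : E 3) - x‖ ≤ 2 := (norm_sub_le _ _).trans (by linarith)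
      nlinarith [norm_nonneg y, norm_nonneg ((p : E 3) - x)]
    · refine mem_iUnion.mpr ⟨i, ⟨p, ⟨hp, ?_⟩, ?_⟩⟩
      · show ‖T (FF S.bd ((S.chart i).map p)) x‖ < ε
        rw [hpq]
        show ‖Φ q‖ < ε
        rw [hq']; exact hy'
      · show Φ ((S.chart i).map p) = y
        rw [hpq, hq']
  refine (measure_mono hsub).trans ((measure_iUnion_le _).trans (ENNReal.tsum_le_tsum fun i => ?_))
  refine chart_area (S.chart i) Φ _ (by positivity) hΦ ((4 * Real.pi / 3) ^ 3 * (1 - ‖x‖ ^ 2))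
    (by positivity) ?_ _ inter_subset_left ?_
  · filter_upwards [hDQ M S.bd hNS' (S.chart i)] with p hp hpU
    exact hp hpU x hx1
  · have hcont : ContinuousOn (fun p => Φ ((S.chart i).map p)) (S.chart i).U := by
      have h1 : Continuous Φ := by
        have : LipschitzWith (Real.toNNReal (4 * Real.pi / (1 - ‖x‖ ^ 2))) Φ := by
          refine LipschitzWith.of_dist_le_mul fun q q' => ?_
          rw [dist_eq_norm, Real.coe_toNNReal _ (by positivity)]
          exact hΦ q q'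
        exact this.continuous
      exact h1.comp_continuousOn (chart_cont _)
    exact meas_part (S.chart i) hcont ε

theorem psi_nonneg {r : ℝ} (hr : 0 ≤ r) (hr1 : r ≤ 1) : 0 ≤ psi r := by
  have h1 : 2 * r / (1 + r) ≤ 1 := by rw [div_le_one (by positivity)]; linarith
  have h0 : 0 ≤ 2 * r / (1 + r) := by positivity
  rw [psi]
  refine mul_nonneg (mul_nonneg ?_ ?_) ?_ <;> linarith

attribute [local irreducible] T

/-- the integrand of the double integral -/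
noncomputable def Fc {M : Type} [MetricSpace M] (bd : Sph 3 → M) (C : RChart 3 M) (ε : ℝ) :
    E 3 × E 3 → ENNReal :=
  ({z | ‖T (FF bd (C.map z.2)) z.1‖ < ε}).indicator (fun z =>
    ENNReal.ofReal ((4 * Real.pi / 3) ^ 3 * √(1 - ‖z.1‖ ^ 2) * psi ‖z.1‖) * ENNReal.ofReal √(C.G z.2).det)

theorem Fc_mem {M : Type} [MetricSpace M] {bd : Sph 3 → M} {C : RChart 3 M} {ε : ℝ} {x p : E 3}
    (h : ‖T (FF bd (C.map p)) x‖ < ε) :
    Fc bd C ε (x, p) = ENNReal.ofReal ((4 * Real.pi / 3) ^ 3 * √(1 - ‖x‖ ^ 2) * psi ‖x‖) * ENNReal.ofReal √(C.G p).det := by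
  unfold Fc
  rw [indicator_of_mem (show (x, p) ∈ {z : E 3 × E 3 | ‖T (FF bd (C.map z.2)) z.1‖ < ε} from h)]

theorem Fc_notMem {M : Type} [MetricSpace M] {bd : Sph 3 → M} {C : RChart 3 M} {ε : ℝ} {x p : E 3}
    (h : ¬ ‖T (FF bd (C.map p)) x‖ < ε) : Fc bd C ε (x, p) = 0 := by
  unfold Fc
  rw [indicator_of_notMem (show (x, p) ∉ {z : E 3 × E 3 | ‖T (FF bd (C.map z.2)) z.1‖ < ε} from h)]

theorem cont_psi (s : Set (E 3)) :
    ContinuousOn (fun z : E 3 => (4 * Real.pi / 3) ^ 3 * √(1 - ‖z‖ ^ 2) * psi ‖z‖) s := by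
  unfold psi
  have hne : ∀ z ∈ s, 1 + ‖z‖ ≠ 0 := fun z _ => by positivity
  have h0 : ContinuousOn (fun z : E 3 => ‖z‖) s := continuous_norm.continuousOn
  have h1 : ContinuousOn (fun z : E 3 => 2 * ‖z‖ / (1 + ‖z‖)) s :=
    (continuousOn_const.mul h0).div (continuousOn_const.add h0) hne
  have h2 : ContinuousOn (fun z : E 3 => √(1 - ‖z‖ ^ 2)) s := by fun_prop
  exact (continuousOn_const.mul h2).mul (((continuousOn_const.sub (continuousOn_const.mul h1)).mul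
    (continuousOn_const.sub (continuousOn_const.mul h1))).mul
      (continuousOn_const.add (continuousOn_const.mul h1)))

theorem cont_det {M : Type} [MetricSpace M] (C : RChart 3 M) :
    ContinuousOn (fun p : E 3 => √(C.G p).det) C.U := by
  have h2 : ContinuousOn (fun p : E 3 => (C.G p).det) C.U :=
    (Continuous.matrix_det continuous_id).comp_continuousOn C.cont_G
  exact Real.continuous_sqrt.comp_continuousOn h2

theorem cont_T {M : Type} [MetricSpace M] {bd : Sph 3 → M} (hNS : NS bd) (C : RChart 3 M) :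
    ContinuousOn (fun z : E 3 × E 3 => T (FF bd (C.map z.2)) z.1) (ball (0 : E 3) 1 ×ˢ C.U) := by
  have h1 := s_CQ M bd hNS
  have h2 : ContinuousOn (fun z : E 3 × E 3 => (z.1, C.map z.2)) (ball (0 : E 3) 1 ×ˢ C.U) :=
    continuousOn_fst.prodMk ((chart_cont C).comp continuousOn_snd (fun z hz => hz.2))
  have h3 : MapsTo (fun z : E 3 × E 3 => (z.1, C.map z.2)) (ball (0 : E 3) 1 ×ˢ C.U)
      {z : E 3 × M | ‖z.1‖ < 1} := by
    intro z hz
    exact mem_ball_zero_iff.1 hz.1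
  have h4 := ContinuousOn.comp h1 h2 h3
  exact h4

theorem chart_meas {M : Type} [MetricSpace M] {bd : Sph 3 → M} (hNS : NS bd) (C : RChart 3 M)
    (ε : ℝ) {B : Set (E 3)} (hBm : MeasurableSet B) (hB : B ⊆ ball (0 : E 3) 1) :
    AEMeasurable (Fc bd C ε) (((volume : Measure (E 3)).restrict B).prod
      ((volume : Measure (E 3)).restrict C.D)) := by
  rw [Measure.prod_restrict]
  have hBD : MeasurableSet (B ×ˢ C.D) := hBm.prod C.meas_D
  have hsub : B ×ˢ C.D ⊆ ball (0 : E 3) 1 ×ˢ C.U := prod_mono hB C.D_sub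
  have hg := (cont_T hNS C).mono hsub
  have hg2 : AEMeasurable (fun z : E 3 × E 3 => ‖T (FF bd (C.map z.2)) z.1‖)
      (((volume : Measure (E 3)).prod (volume : Measure (E 3))).restrict (B ×ˢ C.D)) :=
    hg.norm.aemeasurable hBD
  have hZ : NullMeasurableSet {z : E 3 × E 3 | ‖T (FF bd (C.map z.2)) z.1‖ < ε}
      (((volume : Measure (E 3)).prod (volume : Measure (E 3))).restrict (B ×ˢ C.D)) :=
    hg2.nullMeasurableSet_preimage measurableSet_Iio
  refine AEMeasurable.indicator₀ ?_ hZ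
  have hpsi : ContinuousOn (fun z : E 3 × E 3 => (4 * Real.pi / 3) ^ 3 * √(1 - ‖z.1‖ ^ 2) * psi ‖z.1‖) (B ×ˢ C.D) :=
    (cont_psi B).comp continuousOn_fst (fun z hz => hz.1)
  have hdet : ContinuousOn (fun z : E 3 × E 3 => √(C.G z.2).det) (B ×ˢ C.D) :=
    (cont_det C).comp continuousOn_snd (fun z hz => C.D_sub hz.2)
  exact (hpsi.aemeasurable hBD).ennreal_ofReal.mul (hdet.aemeasurable hBD).ennreal_ofReal

theorem chart_x {M : Type} [MetricSpace M] {bd : Sph 3 → M} (hNS : NS bd) (C : RChart 3 M)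
    (ε : ℝ) {x : E 3} (hx1 : ‖x‖ < 1) : ENNReal.ofReal (psi ‖x‖ / √(1 - ‖x‖ ^ 2)) *
      ∫⁻ p in C.D ∩ {p | ‖T (FF bd (C.map p)) x‖ < ε},
        ENNReal.ofReal ((4 * Real.pi / 3) ^ 3 * (1 - ‖x‖ ^ 2) * √(C.G p).det) ≤
      ∫⁻ p in C.D, Fc bd C ε (x, p) := by
  have hx2 : 0 < 1 - ‖x‖ ^ 2 := by nlinarith [norm_nonneg x]
  have hcp : 0 < √(1 - ‖x‖ ^ 2) := Real.sqrt_pos.2 hx2
  have hps := psi_nonneg (norm_nonneg x) hx1.le
  have hcont : ContinuousOn (fun p => T (FF bd (C.map p)) x) C.U := by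
    have h2 : ContinuousOn (fun p : E 3 => ((x, p) : E 3 × E 3)) C.U :=
      continuousOn_const.prodMk continuousOn_id
    have h3 : MapsTo (fun p : E 3 => ((x, p) : E 3 × E 3)) C.U (ball (0 : E 3) 1 ×ˢ C.U) := by
      intro z hz
      exact ⟨mem_ball_zero_iff.2 hx1, hz⟩
    have h4 := ContinuousOn.comp (cont_T hNS C) h2 h3
    exact h4
  have hm := meas_part C hcont ε
  rw [← lintegral_const_mul' _ _ ENNReal.ofReal_ne_top, ← lintegral_indicator hm,
    ← lintegral_indicator C.meas_D]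
  refine lintegral_mono fun p => ?_
  by_cases hpD : p ∈ C.D
  · by_cases hpZ : ‖T (FF bd (C.map p)) x‖ < ε
    · have e1 : p ∈ C.D ∩ {p | ‖T (FF bd (C.map p)) x‖ < ε} := ⟨hpD, hpZ⟩
      rw [indicator_of_mem e1, indicator_of_mem hpD, Fc_mem hpZ,
        ← ENNReal.ofReal_mul (by positivity), ← ENNReal.ofReal_mul (by positivity)]
      refine ENNReal.ofReal_le_ofReal (le_of_eq ?_)
      have hcs : √(1 - ‖x‖ ^ 2) ^ 2 = 1 - ‖x‖ ^ 2 := Real.sq_sqrt hx2.le
      field_simp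
      rw [hcs]
    · rw [indicator_of_notMem (fun hh => hpZ hh.2)]
      exact zero_le
  · rw [indicator_of_notMem (fun hh => hpD hh.1)]
    exact zero_le

theorem chart_p {M : Type} [MetricSpace M] {bd : Sph 3 → M} (C : RChart 3 M)
    (ε : ℝ) {B : Set (E 3)} (hBm : MeasurableSet B) {c : ENNReal} (p : E 3)
    (hc : ∫⁻ x in B ∩ {x | ‖T (FF bd (C.map p)) x‖ < ε}, ENNReal.ofReal ((4 * Real.pi / 3) ^ 3 * √(1 - ‖x‖ ^ 2) * psi ‖x‖) ≤
      c) : ∫⁻ x in B, Fc bd C ε (x, p) ≤ c * ENNReal.ofReal √(C.G p).det := by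
  have h1 : ∫⁻ x in B, Fc bd C ε (x, p) = ∫⁻ x in B,
      ({x | ‖T (FF bd (C.map p)) x‖ < ε}).indicator (fun x =>
      ENNReal.ofReal ((4 * Real.pi / 3) ^ 3 * √(1 - ‖x‖ ^ 2) * psi ‖x‖) * ENNReal.ofReal √(C.G p).det) x := by
    refine lintegral_congr fun x => ?_
    by_cases hz : ‖T (FF bd (C.map p)) x‖ < ε
    · rw [Fc_mem hz, indicator_of_mem (show x ∈ {x | ‖T (FF bd (C.map p)) x‖ < ε} from hz)]
    · rw [Fc_notMem hz, indicator_of_notMem (show x ∉ {x | ‖T (FF bd (C.map p)) x‖ < ε} from hz)]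
  rw [h1]
  refine (lintegral_indicator_le _ _).trans ?_
  rw [Measure.restrict_restrict' hBm, inter_comm, lintegral_mul_const' _ _ ENNReal.ofReal_ne_top]
  exact mul_le_mul_left hc _

theorem chart_swap {M : Type} [MetricSpace M] {bd : Sph 3 → M} (hNS : NS bd) (C : RChart 3 M)
    (ε : ℝ) {B : Set (E 3)} (hBm : MeasurableSet B) (hB : B ⊆ ball (0 : E 3) 1) {c : ENNReal}
    (hct : c ≠ ⊤)
    (hc : ∀ p, ∫⁻ x in B ∩ {x | ‖T (FF bd (C.map p)) x‖ < ε},
      ENNReal.ofReal ((4 * Real.pi / 3) ^ 3 * √(1 - ‖x‖ ^ 2) * psi ‖x‖) ≤ c) :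
    ∫⁻ x in B, ∫⁻ p in C.D, Fc bd C ε (x, p) ≤ c * ∫⁻ p in C.D, ENNReal.ofReal √(C.G p).det := by
  rw [lintegral_lintegral_swap (f := fun x p => Fc bd C ε (x, p)) (chart_meas hNS C ε hBm hB),
    ← lintegral_const_mul' _ _ hct]
  exact lintegral_mono fun p => chart_p C ε hBm p (hc p)

/-- the counting argument -/
theorem count (hCV : S_CV) (hDQ : S_DQ) (hXS : S_XS) {M : Type} [MetricSpace M] [CompactSpace M]
    (S : Fill 2 M) (hNS : S.NonShort) (htop : S.Triangulated ∨ S.NoRetraction) {r0 : ℝ}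
    (hr0 : 0 < r0) (hr01 : r0 < 1) {δ : ℝ} (hδ : 0 < δ) :
    ∫⁻ x in closedBall (0 : E 3) r0, ENNReal.ofReal (psi ‖x‖ / √(1 - ‖x‖ ^ 2)) ≤
      ENNReal.ofReal (1 + δ) * S.vol := by
  have hNS' : NS S.bd := hNS
  obtain ⟨g1, g2, g3⟩ := s_FF M S.bd hNS'
  obtain ⟨ε0, hε0, hXS'⟩ := hXS r0 δ hr0 hr01 hδ
  have hq : 0 < 1 - r0 ^ 2 := by nlinarith
  have hq1 : 0 < 1 - r0 := by linarith
  set ε : ℝ := min ε0 ((1 - r0 ^ 2) * (1 - r0) ^ 2 / 4) with hεd
  have hε : 0 < ε := lt_min hε0 (by positivity)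
  have hcount := hXS' ε hε (min_le_left _ _)
  set V : ENNReal := volume (ball (0 : E 3) ε) with hV
  have hV0 : V ≠ 0 := (measure_ball_pos volume (0 : E 3) hε).ne'
  have hVt : V ≠ ⊤ := measure_ball_lt_top.ne
  have := S.countable
  set B : Set (E 3) := closedBall (0 : E 3) r0 with hB
  have hBm : MeasurableSet B := measurableSet_closedBall
  have hBn : ∀ x ∈ B, ‖x‖ ≤ r0 := fun x hx => by simpa [hB] using hx
  have hB1 : B ⊆ ball (0 : E 3) 1 := closedBall_subset_ball hr01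
  have hx : ∀ x ∈ B, ENNReal.ofReal (psi ‖x‖ / √(1 - ‖x‖ ^ 2)) * V ≤
      ∑' i, ∫⁻ p in (S.chart i).D, Fc S.bd (S.chart i) ε (x, p) := by
    intro x hxB
    have hxn := hBn x hxB
    refine (mul_le_mul_right (cover_x hCV hDQ S hNS htop hr0 hr01 hxn (min_le_right _ _))
      (ENNReal.ofReal (psi ‖x‖ / √(1 - ‖x‖ ^ 2)))).trans ?_
    rw [← ENNReal.tsum_mul_left]
    exact ENNReal.tsum_le_tsum fun i => chart_x hNS' (S.chart i) ε (hxn.trans_lt hr01)
  have hmain : (∫⁻ x in B, ENNReal.ofReal (psi ‖x‖ / √(1 - ‖x‖ ^ 2))) * V ≤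
      ENNReal.ofReal (1 + δ) * V * S.vol := by
    calc (∫⁻ x in B, ENNReal.ofReal (psi ‖x‖ / √(1 - ‖x‖ ^ 2))) * V =
        ∫⁻ x in B, ENNReal.ofReal (psi ‖x‖ / √(1 - ‖x‖ ^ 2)) * V :=
          (lintegral_mul_const' _ _ hVt).symm
      _ ≤ ∫⁻ x in B, ∑' i, ∫⁻ p in (S.chart i).D, Fc S.bd (S.chart i) ε (x, p) :=
          setLIntegral_mono' hBm hx
      _ = ∑' i, ∫⁻ x in B, ∫⁻ p in (S.chart i).D, Fc S.bd (S.chart i) ε (x, p) :=
          lintegral_tsum fun i => (chart_meas hNS' (S.chart i) ε hBm hB1).lintegral_prod_right'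
      _ ≤ ∑' i, ENNReal.ofReal (1 + δ) * V *
          ∫⁻ p in (S.chart i).D, ENNReal.ofReal √((S.chart i).G p).det :=
          ENNReal.tsum_le_tsum fun i => chart_swap hNS' (S.chart i) ε hBm hB1
            (ENNReal.mul_ne_top ENNReal.ofReal_ne_top hVt) (fun p => hcount _ (g1 _))
      _ = ENNReal.ofReal (1 + δ) * V * S.vol := by
          rw [ENNReal.tsum_mul_left]; rfl
  rw [mul_assoc, mul_comm V, ← mul_assoc] at hmain
  exact (ENNReal.mul_le_mul_iff_left hV0 hVt).1 hmain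

theorem hemi : (volume : Measure (E 4)).toSphere univ / 2 = ENNReal.ofReal (Real.pi ^ 2) := by
  have h4 : (Module.finrank ℝ (E 4) : ENNReal) = ENNReal.ofReal 4 := by simp
  have hG : Real.Gamma ((4 : ℝ) / 2 + 1) = 2 := by
    have h : ((4 : ℝ) / 2 + 1) = ((2 : ℕ) : ℝ) + 1 := by norm_num
    rw [h, Real.Gamma_nat_eq_factorial]
    norm_num
  have hs : √Real.pi ^ 4 = Real.pi ^ 2 := by
    have h := Real.sq_sqrt Real.pi_pos.le
    calc √Real.pi ^ 4 = (√Real.pi ^ 2) ^ 2 := by ring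
      _ = _ := by rw [h]
  have hV : (volume : Measure (E 4)) (ball 0 1) = ENNReal.ofReal (Real.pi ^ 2 / 2) := by
    rw [EuclideanSpace.volume_ball]
    simp only [Fintype.card_fin, ENNReal.ofReal_one, one_pow, one_mul]
    congr 1
    push_cast
    rw [hG, hs]
  rw [Measure.toSphere_apply_univ, hV, h4, ← ENNReal.ofReal_mul (by norm_num)]
  rw [ENNReal.div_eq_inv_mul, show (2 : ENNReal)⁻¹ = ENNReal.ofReal (1 / 2) by
    rw [ENNReal.ofReal_div_of_pos (by norm_num)]; simp, ← ENNReal.ofReal_mul (by norm_num)]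
  congr 1
  ring

theorem main_of (hCV : S_CV) (hDQ : S_DQ) (hXS : S_XS) (hRAD : S_RAD) : S_MAIN := by
  intro M _ _ S hNS htop
  obtain ⟨r0, hr0, hr01, hR⟩ := hRAD
  have h := count hCV hDQ hXS S hNS htop hr0 hr01 (δ := 2 / 8400) (by norm_num)
  have h2 := hR.trans h
  rw [hemi, ← ENNReal.ofReal_mul (by norm_num)]
  have e : Real.pi ^ 2 * (8402 / 10000) = (1 + 2 / 8400) * (84 / 100 * Real.pi ^ 2) := by ring
  rw [e, ENNReal.ofReal_mul (by norm_num)] at h2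
  refine (ENNReal.mul_le_mul_iff_right ?_ ENNReal.ofReal_ne_top).1 h2
  rw [Ne, ENNReal.ofReal_eq_zero, not_le]
  norm_num

end MN

end Pool.Agent.L7h77.FB
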